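import Mathlib
import Pool.Agent.W544.EG.Final2
import Pool.Agent.W973.EGSR4
import Pool.Agent.W342.EG.D7
import Pool.Agent.W544.EG.Exists

/-!
# MP_326c77_gt, Q1: the EGS conjecture `sup_g λ₁(G,g) diam(G,g)² < ∞` is true

`G` is a closed connected subgroup of `U(N)`, i.e. (Peter–Weyl) an arbitrary compact connected Lie
group.  `LeftInvMetric G m` (file `Pool/Agent/W544/EG/Defs.lean`) is a left-invariant Riemannian
metric on `G`, given by an orthonormal basis of the Lie algebra, `lambda1 g` the smallest positive
eigenvalue of the Laplace–Beltrami operator and `diam g` the diameter.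
-/

open Matrix

namespace Pool.Agent.Results.MP_326c77_gt.EGSConjecture

open Pool.Agent.W544.EG

/-- **The EGS conjecture.** For every compact connected Lie group `G` (a closed connected subgroup
of `U(N)`) there is a constant `C` such that `λ₁(G,g) diam(G,g)² ≤ C` for all left-invariant
Riemannian metrics `g` on `G`.

The second part is the same statement without infima and suprema: if `G` is not trivial there are,
for every `g`, a positive eigenvalue `lam` of the Laplace–Beltrami operator and a number `r` with
`lam * r² ≤ C` such that any two points of `G` are joined by a piecewise `C¹` curve in `G` of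
`g`-length at most `r`.  The last part records that left-invariant metrics exist (the Lie algebra is
a real vector space), so that nothing here is vacuous. -/
theorem result (N : ℕ) (G : Subgroup (unitaryGroup (Fin N) ℂ))
    (hclosed : IsClosed (G : Set (unitaryGroup (Fin N) ℂ)))
    (hconn : IsConnected (G : Set (unitaryGroup (Fin N) ℂ))) :
    (∃ C : ℝ, ∀ (m : ℕ) (g : LeftInvMetric G m),
      lambda1 g * diam g ^ 2 ≤ C ∧
      (G ≠ ⊥ → ∃ lam : ℝ, 0 < lam ∧ IsEigenvalue g lam ∧ ∃ r : ℝ, 0 ≤ r ∧ lam * r ^ 2 ≤ C ∧
        ∀ x ∈ G, ∀ y ∈ G, ∃ ℓ ≤ r, 0 ≤ ℓ ∧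
          Joined g (x : unitaryGroup (Fin N) ℂ) (y : unitaryGroup (Fin N) ℂ) ℓ)) ∧
    ∃ m : ℕ, Nonempty (LeftInvMetric G m) :=
  ⟨egs Pool.Agent.W973.EGSR.s_R Pool.Agent.W342.EG.S_D_holds hclosed hconn,
    exists_metric hclosed⟩

end Pool.Agent.Results.MP_326c77_gt.EGSConjecture
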